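import Pool.Agent.TH12.Puig.Main

/-!
# Small vertices in blocks with large defect groups, `p = 3`

Over every algebraically closed field of characteristic `3` there is a fixed finite `3`-group `Q`,
of order at most `9`, which occurs as a vertex of simple modules of finite groups in blocks whose
defect groups are arbitrarily large. The groups are `PGL₃(K)` for prime fields `K` with
`|K| ≡ 1 mod 3ⁿ`, and the modules are cuspidal composition factors of the permutation module on flags.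
-/

set_option autoImplicit false

open Pool.Agent.TH12.Puig Pool.Agent.TH12.Blk

theorem Pool.Agent.Results.MP_d1e4d8_al.VertexUnboundedDefect.result.{u}
    (F : Type u) [Field F] [IsAlgClosed F] [CharP F 3] :
    ∃ (Q : Type) (_ : Group Q), Finite Q ∧ IsPGroup 3 Q ∧ Nat.card Q ≤ 9 ∧
      ∀ n : ℕ, ∃ (G : Type) (_ : Group G) (_ : Finite G) (M : Type u) (_ : AddCommGroup M)
        (_ : Module F M) (ρ : Representation F G M) (V : Subgroup G) (b : MonoidAlgebra F G),
        Module.Finite F M ∧ ρ.IsIrreducible ∧ IsVertex ρ V ∧ Nonempty (V ≃* Q) ∧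
        IsBlockIdem b ∧ ρ.asAlgebraHom b = 1 ∧ (∃ D, IsDefectGroup 3 b D) ∧
        ∀ D, IsDefectGroup 3 b D → n ≤ Nat.card D := by
  refine exists_fixed_group
    (fun n Q _ => ∃ (G : Type) (_ : Group G) (_ : Finite G) (M : Type u) (_ : AddCommGroup M)
        (_ : Module F M) (ρ : Representation F G M) (V : Subgroup G) (b : MonoidAlgebra F G),
        Module.Finite F M ∧ ρ.IsIrreducible ∧ IsVertex ρ V ∧ Nonempty (V ≃* Q) ∧
        IsBlockIdem b ∧ ρ.asAlgebraHom b = 1 ∧ (∃ D, IsDefectGroup 3 b D) ∧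
        ∀ D, IsDefectGroup 3 b D → n ≤ Nat.card D) ?_ ?_ ?_
  · rintro n Q Q' _ _ e ⟨G, i1, i2, M, i3, i4, ρ, V, b, h1, h2, h3, ⟨h4⟩, h5⟩
    exact ⟨G, i1, i2, M, i3, i4, ρ, V, b, h1, h2, h3, ⟨h4.trans e⟩, h5⟩
  · rintro m n Q _ hmn ⟨G, i1, i2, M, i3, i4, ρ, V, b, h1, h2, h3, h4, h5, h6, h7, h8⟩
    exact ⟨G, i1, i2, M, i3, i4, ρ, V, b, h1, h2, h3, h4, h5, h6, h7,
      fun D hD => hmn.trans (h8 D hD)⟩
  · intro n
    obtain ⟨G, i1, i2, M, i3, i4, ρ, V, b, h1, h2, h3, h4, h5, h6⟩ := exists_family F n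
    exact ⟨V, inferInstance, inferInstance, h4, h5, G, i1, i2, M, i3, i4, ρ, V, b, h1, h2, h3,
      ⟨MulEquiv.refl V⟩, h6⟩
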